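import Pool.Agent.H87.TD.Plane

/-!
# Three orders for oriented graphs built by inserting vertices with at most three neighbours
-/

set_option autoImplicit false

namespace Pool.Agent.H87.TD

open Classical

/-- A placement of the vertices of `S` in the plane such that arcs follow the majority relation. -/
def Placed {V : Type*} (D : V → V → Prop) (S : Finset V) (f : V → Fin 3 → ℝ) : Prop :=
  (∀ v ∈ S, SumZero (f v)) ∧ (∀ u ∈ S, ∀ v ∈ S, u ≠ v → Apart (f u) (f v)) ∧
    ∀ u ∈ S, ∀ v ∈ S, D u v → Maj (f u) (f v)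

theorem far_point {ι : Type*} (S : Finset ι) (f : ι → Fin 3 → ℝ) :
    ∃ p, SumZero p ∧ ∀ x ∈ S, Maj p (f x) := by
  obtain ⟨M, hM⟩ : ∃ M : ℝ, ∀ x ∈ S, ∀ i, |f x i| < M := by
    refine ⟨∑ x ∈ S, ∑ i, |f x i| + 1, fun x hx i => ?_⟩
    have h1 : |f x i| ≤ ∑ i, |f x i| :=
      Finset.single_le_sum (f := fun i => |f x i|) (fun i _ => abs_nonneg _) (Finset.mem_univ i)
    have h2 : ∑ i, |f x i| ≤ ∑ x ∈ S, ∑ i, |f x i| :=
      Finset.single_le_sum (f := fun x => ∑ i, |f x i|)
        (fun y _ => Finset.sum_nonneg fun i _ => abs_nonneg _) hx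
    linarith
  obtain ⟨v1, v2, v3⟩ := vec_spec (i := 0) (j := 1) (k := 2) (by decide) (by decide) (by decide)
    (-M) (-M) (2 * M)
  refine ⟨vec 0 1 (-M) (-M) (2 * M), ?_, fun x hx => ?_⟩
  · unfold SumZero
    rw [sum_eq _ (i := 0) (j := 1) (k := 2) (by decide) (by decide) (by decide), v1, v2, v3]; ring
  · refine maj_of (i := 0) (j := 1) (k := 2) (by decide) (by decide) (by decide) ?_ ?_
    · rw [v1]
      have := hM x hx 0
      have := neg_abs_le (f x 0)
      linarith
    · rw [v2]
      have := hM x hx 1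
      have := neg_abs_le (f x 1)
      linarith

theorem far_point' {ι : Type*} (S : Finset ι) (f : ι → Fin 3 → ℝ) :
    ∃ p, SumZero p ∧ ∀ x ∈ S, Maj (f x) p := by
  obtain ⟨p, hp, h⟩ := far_point S (fun x i => - f x i)
  refine ⟨fun i => - p i, ?_, fun x hx => ?_⟩
  · unfold SumZero at *
    rw [Finset.sum_neg_distrib, hp, neg_zero]
  · have := maj_neg (h x hx)
    simpa using this

/-- A position for a new vertex with predecessors `I` and successors `O`. -/
theorem exists_point {ι : Type*} {S I O : Finset ι} {f : ι → Fin 3 → ℝ}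
    (h0 : ∀ x ∈ S, SumZero (f x)) (hap : ∀ x ∈ S, ∀ y ∈ S, x ≠ y → Apart (f x) (f y))
    (hI : I ⊆ S) (hO : O ⊆ S) (hd : Disjoint I O)
    (h : I = ∅ ∨ O = ∅ ∨ I.card + O.card ≤ 3) :
    ∃ p, SumZero p ∧ (∀ x ∈ I, Maj (f x) p) ∧ ∀ x ∈ O, Maj p (f x) := by
  by_cases hI0 : I = ∅
  · obtain ⟨p, hp, hp'⟩ := far_point O f
    exact ⟨p, hp, by rw [hI0]; simp, hp'⟩
  by_cases hO0 : O = ∅
  · obtain ⟨p, hp, hp'⟩ := far_point' I f
    exact ⟨p, hp, hp', by rw [hO0]; simp⟩
  have hc : I.card + O.card ≤ 3 := by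
    rcases h with h | h | h
    · exact absurd h hI0
    · exact absurd h hO0
    · exact h
  have hIc : 1 ≤ I.card := Finset.card_pos.2 (Finset.nonempty_iff_ne_empty.2 hI0)
  have hOc : 1 ≤ O.card := Finset.card_pos.2 (Finset.nonempty_iff_ne_empty.2 hO0)
  have two : ∀ T : Finset ι, 1 ≤ T.card → T.card ≤ 2 → ∃ b ∈ T, ∃ c ∈ T, ∀ x ∈ T, x = b ∨ x = c := by
    intro T h1 h2
    rcases Nat.lt_or_ge T.card 2 with h3 | h3
    · obtain ⟨b, hb⟩ := Finset.card_eq_one.1 (by omega : T.card = 1)
      exact ⟨b, by simp [hb], b, by simp [hb], fun x hx => by simpa [hb] using hx⟩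
    · obtain ⟨b, c, _, hbc⟩ := Finset.card_eq_two.1 (by omega : T.card = 2)
      exact ⟨b, by simp [hbc], c, by simp [hbc], fun x hx => by simpa [hbc] using hx⟩
  have hne : ∀ x ∈ I, ∀ y ∈ O, x ≠ y := fun x hx y hy hxy =>
    Finset.disjoint_left.1 hd hx (hxy ▸ hy)
  rcases Nat.lt_or_ge I.card 2 with h1 | h1
  · obtain ⟨a, ha⟩ := Finset.card_eq_one.1 (by omega : I.card = 1)
    have haI : a ∈ I := by simp [ha]
    obtain ⟨b, hb, c, hc', hbc⟩ := two O hOc (by omega)
    obtain ⟨p, hp, p1, p2, p3⟩ := exists_between (h0 a (hI haI)) (h0 b (hO hb)) (h0 c (hO hc'))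
      (hap a (hI haI) b (hO hb) (hne a haI b hb)) (hap a (hI haI) c (hO hc') (hne a haI c hc'))
    refine ⟨p, hp, fun x hx => ?_, fun x hx => ?_⟩
    · have : x = a := by simpa [ha] using hx
      rw [this]; exact p1
    · rcases hbc x hx with h | h <;> rw [h]
      · exact p2
      · exact p3
  · obtain ⟨a, ha⟩ := Finset.card_eq_one.1 (by omega : O.card = 1)
    have haO : a ∈ O := by simp [ha]
    obtain ⟨b, hb, c, hc', hbc⟩ := two I hIc (by omega)
    obtain ⟨p, hp, p1, p2, p3⟩ := exists_between' (h0 a (hO haO)) (h0 b (hI hb)) (h0 c (hI hc'))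
      (hap a (hO haO) b (hI hb) (hne b hb a haO).symm) (hap a (hO haO) c (hI hc') (hne c hc' a haO).symm)
    refine ⟨p, hp, fun x hx => ?_, fun x hx => ?_⟩
    · rcases hbc x hx with h | h <;> rw [h]
      · exact p2
      · exact p3
    · have : x = a := by simpa [ha] using hx
      rw [this]; exact p1

theorem placed {V : Type*} (D : V → V → Prop) (hD : ∀ u v, D u v → ¬ D v u)
    (hdeg : ∀ S : Finset V, S.Nonempty → ∃ v ∈ S, (∀ u ∈ S, ¬ D u v) ∨ (∀ u ∈ S, ¬ D v u) ∨
      (S.filter (fun u => D u v ∨ D v u)).card ≤ 3) (n : ℕ) :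
    ∀ S : Finset V, S.card = n → ∃ f, Placed D S f := by
  induction n with
  | zero =>
    intro S hS
    rw [Finset.card_eq_zero] at hS
    subst hS
    exact ⟨fun _ _ => 0, by simp [Placed]⟩
  | succ n ih =>
    intro S hS
    obtain ⟨v, hv, hvd⟩ := hdeg S (Finset.card_pos.1 (by omega))
    obtain ⟨f, f0, f1, f2⟩ := ih (S.erase v) (by rw [Finset.card_erase_of_mem hv]; omega)
    have hirr : ∀ u, ¬ D u u := fun u h => hD u u h h
    have hdis : Disjoint ((S.erase v).filter (fun u => D u v)) ((S.erase v).filter (fun u => D v u)) := by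
      rw [Finset.disjoint_left]
      intro x hx hx'
      exact hD _ _ (Finset.mem_filter.1 hx).2 (Finset.mem_filter.1 hx').2
    obtain ⟨p, hp, hp1, hp2⟩ := exists_point (S := S.erase v)
      (I := (S.erase v).filter (fun u => D u v)) (O := (S.erase v).filter (fun u => D v u)) f0 f1
      (Finset.filter_subset _ _) (Finset.filter_subset _ _) hdis (by
        rcases hvd with h | h | h
        · left
          rw [Finset.filter_eq_empty_iff]
          intro u hu
          exact h u (Finset.mem_of_mem_erase hu)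
        · right; left
          rw [Finset.filter_eq_empty_iff]
          intro u hu
          exact h u (Finset.mem_of_mem_erase hu)
        · right; right
          rw [← Finset.card_union_of_disjoint hdis, ← Finset.filter_or]
          exact (Finset.card_le_card (Finset.filter_subset_filter _ (Finset.erase_subset v S))).trans h)
    obtain ⟨q, hq, hq1, hq2, hq3⟩ := perturb hp ((S.erase v).filter (fun u => D u v))
      ((S.erase v).filter (fun u => D v u)) (S.erase v) f hp1 hp2
    refine ⟨Function.update f v q, ?_, ?_, ?_⟩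
    · intro x hx
      by_cases hxv : x = v
      · rw [hxv, Function.update_self]; exact hq
      · rw [Function.update_of_ne hxv]; exact f0 x (Finset.mem_erase.2 ⟨hxv, hx⟩)
    · intro x hx y hy hxy
      by_cases hxv : x = v
      · have hyv : y ≠ v := fun h => hxy (hxv.trans h.symm)
        rw [hxv, Function.update_self, Function.update_of_ne hyv]
        exact fun i h => hq3 y (Finset.mem_erase.2 ⟨hyv, hy⟩) i h.symm
      · rw [Function.update_of_ne hxv]
        by_cases hyv : y = v
        · rw [hyv, Function.update_self]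
          exact hq3 x (Finset.mem_erase.2 ⟨hxv, hx⟩)
        · rw [Function.update_of_ne hyv]
          exact f1 x (Finset.mem_erase.2 ⟨hxv, hx⟩) y (Finset.mem_erase.2 ⟨hyv, hy⟩) hxy
    · intro x hx y hy hxy
      by_cases hxv : x = v
      · have hyv : y ≠ v := fun h => hirr v (by rw [hxv, h] at hxy; exact hxy)
        rw [hxv, Function.update_self, Function.update_of_ne hyv]
        exact hq2 y (Finset.mem_filter.2 ⟨Finset.mem_erase.2 ⟨hyv, hy⟩, hxv ▸ hxy⟩)
      · rw [Function.update_of_ne hxv]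
        by_cases hyv : y = v
        · rw [hyv, Function.update_self]
          exact hq1 x (Finset.mem_filter.2 ⟨Finset.mem_erase.2 ⟨hxv, hx⟩, hyv ▸ hxy⟩)
        · rw [Function.update_of_ne hyv]
          exact f2 x (Finset.mem_erase.2 ⟨hxv, hx⟩) y (Finset.mem_erase.2 ⟨hyv, hy⟩) hxy

end Pool.Agent.H87.TD
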