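import Mathlib

/-!
# Points of a plane and the majority relation

Points are vectors `p : Fin 3 → ℝ` with sum `0`. `Maj p q` says that all coordinates but at most one
increase from `p` to `q`. A point can be inserted between one given point and two given points.
-/

set_option autoImplicit false

namespace Pool.Agent.H87.TD

open Filter Topology

/-- All coordinates of `q - p` but at most one are positive. -/
def Maj (p q : Fin 3 → ℝ) : Prop := ∃ k, ∀ i, i ≠ k → p i < q i

/-- The coordinates add up to zero. -/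
def SumZero (p : Fin 3 → ℝ) : Prop := ∑ i, p i = 0

/-- No coordinate of `p` and `q` is the same. -/
def Apart (p q : Fin 3 → ℝ) : Prop := ∀ i, p i ≠ q i

theorem maj_neg {p q : Fin 3 → ℝ} (h : Maj p q) : Maj (fun i => - q i) (fun i => - p i) := by
  obtain ⟨k, hk⟩ := h
  exact ⟨k, fun i hi => neg_lt_neg (hk i hi)⟩

theorem three : ∀ i j k l : Fin 3, i ≠ j → i ≠ k → j ≠ k → l = i ∨ l = j ∨ l = k := by decide

theorem univ_eq : ∀ i j k : Fin 3, i ≠ j → i ≠ k → j ≠ k → (Finset.univ : Finset (Fin 3)) = {i, j, k} := by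
  decide

theorem sum_eq (f : Fin 3 → ℝ) {i j k : Fin 3} (hij : i ≠ j) (hik : i ≠ k) (hjk : j ≠ k) :
    ∑ l, f l = f i + f j + f k := by
  rw [univ_eq i j k hij hik hjk, Finset.sum_insert, Finset.sum_insert, Finset.sum_singleton,
    add_assoc]
  · simpa using hjk
  · simp [hij, hik]

/-- The vector with given coordinates at `i`, `j`, `k`. -/
def vec (i j : Fin 3) (x y z : ℝ) : Fin 3 → ℝ := fun l => if l = i then x else if l = j then y else z

theorem vec_spec {i j k : Fin 3} (hij : i ≠ j) (hik : i ≠ k) (hjk : j ≠ k) (x y z : ℝ) :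
    vec i j x y z i = x ∧ vec i j x y z j = y ∧ vec i j x y z k = z := by
  unfold vec
  refine ⟨by simp, by simp [hij.symm], by simp [hik.symm, hjk.symm]⟩

theorem maj_of {p q : Fin 3 → ℝ} {i j k : Fin 3} (hij : i ≠ j) (hik : i ≠ k) (hjk : j ≠ k)
    (h1 : p i < q i) (h2 : p j < q j) : Maj p q := by
  refine ⟨k, fun l hl => ?_⟩
  rcases three i j k l hij hik hjk with h | h | h
  · rw [h]; exact h1
  · rw [h]; exact h2
  · exact absurd h hl

/-- What is to be found for the differences `d`, `e`. -/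
def Goal (d e : Fin 3 → ℝ) : Prop :=
  ∃ q, SumZero q ∧ Maj 0 q ∧ Maj q d ∧ Maj q e

theorem goal_symm {d e : Fin 3 → ℝ} (h : Goal d e) : Goal e d := by
  obtain ⟨q, h0, h1, h2, h3⟩ := h
  exact ⟨q, h0, h1, h3, h2⟩

/-- `d` has one positive coordinate `i`, `e` has the same positive coordinate. -/
theorem goal_same {d e : Fin 3 → ℝ} {i j k : Fin 3} (hij : i ≠ j) (hik : i ≠ k) (hjk : j ≠ k)
    (hd : 0 < d i) (he : 0 < e i) : Goal d e := by
  obtain ⟨s, hs0, hs⟩ : ∃ s : ℝ, 0 < s ∧ (s < d i ∧ s < e i) :=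
    ⟨min (d i) (e i) / 2, by positivity, by
      constructor
      · have := min_le_left (d i) (e i); have := lt_min hd he; linarith
      · have := min_le_right (d i) (e i); have := lt_min hd he; linarith⟩
  obtain ⟨M, hM1, hM2, hM3⟩ : ∃ M : ℝ, s < M ∧ -d j < M ∧ -e j < M :=
    ⟨s + |d j| + |e j| + 1, by
      have := abs_nonneg (d j); have := abs_nonneg (e j); linarith, by
      have := neg_abs_le (d j); have := abs_nonneg (e j); linarith, by
      have := neg_abs_le (e j); have := abs_nonneg (d j); linarith⟩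
  obtain ⟨v1, v2, v3⟩ := vec_spec hij hik hjk s (-M) (M - s)
  refine ⟨vec i j s (-M) (M - s), ?_, ?_, ?_, ?_⟩
  · unfold SumZero
    rw [sum_eq _ hij hik hjk, v1, v2, v3]; ring
  · refine maj_of hik hij hjk.symm ?_ ?_
    · rw [v1]; simpa using hs0
    · rw [v3]; simp only [Pi.zero_apply]; linarith
  · refine maj_of hij hik hjk ?_ ?_
    · rw [v1]; exact hs.1
    · rw [v2]; linarith
  · refine maj_of hij hik hjk ?_ ?_
    · rw [v1]; exact hs.2
    · rw [v2]; linarith

/-- `d` has one positive coordinate `i`, `e` has one positive coordinate `j`. -/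
theorem goal_diff {d e : Fin 3 → ℝ} (hd0 : SumZero d) (he0 : SumZero e) {i j k : Fin 3}
    (hij : i ≠ j) (hik : i ≠ k) (hjk : j ≠ k)
    (hdj : d j < 0) (hdk : d k < 0) (hei : e i < 0) (hek : e k < 0) : Goal d e := by
  unfold SumZero at hd0 he0
  rw [sum_eq _ hij hik hjk] at hd0 he0
  obtain ⟨s, hs0, hs1, hs2⟩ : ∃ s : ℝ, 0 < s ∧ 2 * s < -d j ∧ 2 * s < -e i :=
    ⟨min (-d j) (-e i) / 4, by
      have := lt_min (neg_pos.2 hdj) (neg_pos.2 hei); linarith, by
      have := min_le_left (-d j) (-e i); have := lt_min (neg_pos.2 hdj) (neg_pos.2 hei); linarith, by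
      have := min_le_right (-d j) (-e i); have := lt_min (neg_pos.2 hdj) (neg_pos.2 hei); linarith⟩
  obtain ⟨v1, v2, v3⟩ := vec_spec hij hik hjk (d i - s) (e j - s) (-(d i + e j) + 2 * s)
  refine ⟨vec i j (d i - s) (e j - s) (-(d i + e j) + 2 * s), ?_, ?_, ?_, ?_⟩
  · unfold SumZero
    rw [sum_eq _ hij hik hjk, v1, v2, v3]; ring
  · refine maj_of hij hik hjk ?_ ?_
    · rw [v1]; simp only [Pi.zero_apply]; linarith
    · rw [v2]; simp only [Pi.zero_apply]; linarith
  · refine maj_of hik hij hjk.symm ?_ ?_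
    · rw [v1]; linarith
    · rw [v3]; linarith
  · refine maj_of hjk hij.symm hik.symm ?_ ?_
    · rw [v2]; linarith
    · rw [v3]; linarith

/-- `d` has one positive coordinate `i`, which is the only negative one of `e`. -/
theorem goal_opp {d e : Fin 3 → ℝ} (hd0 : SumZero d) {i j k : Fin 3}
    (hij : i ≠ j) (hik : i ≠ k) (hjk : j ≠ k)
    (hdj : d j < 0) (hdk : d k < 0) (hej : 0 < e j) (hek : 0 < e k) : Goal d e := by
  unfold SumZero at hd0
  rw [sum_eq _ hij hik hjk] at hd0
  obtain ⟨s, hs0, hs1, hs2⟩ : ∃ s : ℝ, 0 < s ∧ s < e k ∧ s < -d k :=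
    ⟨min (e k) (-d k) / 2, by
      have := lt_min hek (neg_pos.2 hdk); linarith, by
      have := min_le_left (e k) (-d k); have := lt_min hek (neg_pos.2 hdk); linarith, by
      have := min_le_right (e k) (-d k); have := lt_min hek (neg_pos.2 hdk); linarith⟩
  obtain ⟨v1, v2, v3⟩ := vec_spec hij hik hjk (d i - s) (-(d i - s) - s) s
  refine ⟨vec i j (d i - s) (-(d i - s) - s) s, ?_, ?_, ?_, ?_⟩
  · unfold SumZero
    rw [sum_eq _ hij hik hjk, v1, v2, v3]; ring
  · refine maj_of hik hij hjk.symm ?_ ?_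
    · rw [v1]; simp only [Pi.zero_apply]; linarith
    · rw [v3]; simpa using hs0
  · refine maj_of hij hik hjk ?_ ?_
    · rw [v1]; linarith
    · rw [v2]; linarith
  · refine maj_of hjk hij.symm hik.symm ?_ ?_
    · rw [v2]; linarith
    · rw [v3]; linarith

/-- Both have two positive coordinates. -/
theorem goal_pos {d e : Fin 3 → ℝ} (hd : Maj 0 d) (he : Maj 0 e) : Goal d e := by
  obtain ⟨k, hk⟩ := hd
  obtain ⟨m, hm⟩ := he
  obtain ⟨s, hs0, hs1, hs2⟩ : ∃ s : ℝ, 0 < s ∧ (∀ i, i ≠ k → s < d i) ∧ (∀ i, i ≠ m → s < e i) := by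
    have h1 : ∀ᶠ s : ℝ in 𝓝[>] 0, ∀ i, i ≠ k → s < d i := by
      rw [eventually_all]
      intro i
      by_cases hi : i = k
      · exact Eventually.of_forall fun s h => absurd hi h
      · have : ∀ᶠ s : ℝ in 𝓝[>] 0, s < d i :=
          (eventually_lt_nhds (hk i hi)).filter_mono nhdsWithin_le_nhds
        exact this.mono fun s hs _ => hs
    have h2 : ∀ᶠ s : ℝ in 𝓝[>] 0, ∀ i, i ≠ m → s < e i := by
      rw [eventually_all]
      intro i
      by_cases hi : i = m
      · exact Eventually.of_forall fun s h => absurd hi h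
      · have : ∀ᶠ s : ℝ in 𝓝[>] 0, s < e i :=
          (eventually_lt_nhds (hm i hi)).filter_mono nhdsWithin_le_nhds
        exact this.mono fun s hs _ => hs
    have h3 : ∀ᶠ s : ℝ in 𝓝[>] 0, 0 < s := eventually_mem_nhdsWithin
    obtain ⟨s, h⟩ := (h3.and (h1.and h2)).exists
    exact ⟨s, h.1, h.2.1, h.2.2⟩
  obtain ⟨v1, v2, v3⟩ := vec_spec (i := 0) (j := 1) (k := 2) (by decide) (by decide) (by decide) s s
    (-2 * s)
  have hle : ∀ l, vec 0 1 s s (-2 * s) l ≤ s := by
    intro l
    rcases three 0 1 2 l (by decide) (by decide) (by decide) with h | h | h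
    · rw [h, v1]
    · rw [h, v2]
    · rw [h, v3]; linarith
  refine ⟨vec 0 1 s s (-2 * s), ?_, ?_, ?_, ?_⟩
  · unfold SumZero
    rw [sum_eq _ (i := 0) (j := 1) (k := 2) (by decide) (by decide) (by decide), v1, v2, v3]; ring
  · refine maj_of (i := 0) (j := 1) (k := 2) (by decide) (by decide) (by decide) ?_ ?_
    · rw [v1]; simpa using hs0
    · rw [v2]; simpa using hs0
  · exact ⟨k, fun i hi => lt_of_le_of_lt (hle i) (hs1 i hi)⟩
  · exact ⟨m, fun i hi => lt_of_le_of_lt (hle i) (hs2 i hi)⟩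

/-- A vector with nonzero coordinates has two positive ones, or all but one are negative. -/
theorem signs (d : Fin 3 → ℝ) (hd : ∀ i, d i ≠ 0) : Maj 0 d ∨ ∃ k, ∀ i, i ≠ k → d i < 0 := by
  rcases lt_or_gt_of_ne (hd 0) with h0 | h0 <;> rcases lt_or_gt_of_ne (hd 1) with h1 | h1 <;>
    rcases lt_or_gt_of_ne (hd 2) with h2 | h2
  · exact Or.inr ⟨0, fun i hi => by fin_cases i <;> first | exact absurd rfl hi | assumption⟩
  · exact Or.inr ⟨2, fun i hi => by fin_cases i <;> first | exact absurd rfl hi | assumption⟩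
  · exact Or.inr ⟨1, fun i hi => by fin_cases i <;> first | exact absurd rfl hi | assumption⟩
  · exact Or.inl ⟨0, fun i hi => by fin_cases i <;> first | exact absurd rfl hi | assumption⟩
  · exact Or.inr ⟨0, fun i hi => by fin_cases i <;> first | exact absurd rfl hi | assumption⟩
  · exact Or.inl ⟨1, fun i hi => by fin_cases i <;> first | exact absurd rfl hi | assumption⟩
  · exact Or.inl ⟨2, fun i hi => by fin_cases i <;> first | exact absurd rfl hi | assumption⟩
  · exact Or.inl ⟨0, fun i hi => by fin_cases i <;> first | exact absurd rfl hi | assumption⟩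

theorem others : ∀ k : Fin 3, ∃ i j : Fin 3, k ≠ i ∧ k ≠ j ∧ i ≠ j := by decide

theorem third : ∀ k m : Fin 3, k ≠ m → ∃ j : Fin 3, k ≠ j ∧ m ≠ j := by decide

/-- The sum zero condition makes the remaining coordinate positive. -/
theorem pos_of_neg {d : Fin 3 → ℝ} (hd0 : SumZero d) {k : Fin 3} (hk : ∀ i, i ≠ k → d i < 0) :
    0 < d k := by
  obtain ⟨i, j, hki, hkj, hij⟩ := others k
  unfold SumZero at hd0
  rw [sum_eq _ hki hkj hij] at hd0
  have := hk i hki.symm
  have := hk j hkj.symm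
  linarith

/-- One negative-type and one positive-type vector. -/
theorem goal_mixed {d e : Fin 3 → ℝ} (hd0 : SumZero d) {k : Fin 3}
    (hk : ∀ i, i ≠ k → d i < 0) (he : Maj 0 e) : Goal d e := by
  obtain ⟨m, hm⟩ := he
  by_cases hkm : m = k
  · subst hkm
    obtain ⟨i, j, hki, hkj, hij⟩ := others m
    exact goal_opp hd0 hki hkj hij (hk i hki.symm) (hk j hkj.symm) (by simpa using hm i hki.symm)
      (by simpa using hm j hkj.symm)
  · obtain ⟨j, hkj, hmj⟩ := third k m (Ne.symm hkm)
    exact goal_same (i := k) (j := m) (k := j) (Ne.symm hkm) hkj hmj (pos_of_neg hd0 hk)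
      (by simpa using hm k (Ne.symm hkm))

theorem goal_all {d e : Fin 3 → ℝ} (hd0 : SumZero d) (he0 : SumZero e) (hd : ∀ i, d i ≠ 0)
    (he : ∀ i, e i ≠ 0) : Goal d e := by
  rcases signs d hd with h1 | ⟨k, h1⟩ <;> rcases signs e he with h2 | ⟨m, h2⟩
  · exact goal_pos h1 h2
  · exact goal_symm (goal_mixed he0 h2 h1)
  · exact goal_mixed hd0 h1 h2
  · by_cases hkm : k = m
    · subst hkm
      obtain ⟨i, j, hki, hkj, hij⟩ := others k
      exact goal_same hki hkj hij (pos_of_neg hd0 h1) (pos_of_neg he0 h2)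
    · obtain ⟨j, hkj, hmj⟩ := third k m hkm
      exact goal_diff hd0 he0 hkm hkj hmj (h1 m (Ne.symm hkm)) (h1 j hkj.symm) (h2 k hkm)
        (h2 j hmj.symm)

/-- Insertion of a point with one predecessor and two successors. -/
theorem exists_between {a b c : Fin 3 → ℝ} (ha : SumZero a) (hb : SumZero b) (hc : SumZero c)
    (hab : Apart a b) (hac : Apart a c) :
    ∃ p, SumZero p ∧ Maj a p ∧ Maj p b ∧ Maj p c := by
  obtain ⟨q, h0, ⟨k1, h1⟩, ⟨k2, h2⟩, ⟨k3, h3⟩⟩ := goal_all (d := fun i => b i - a i)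
    (e := fun i => c i - a i) (by
      unfold SumZero at *
      rw [Finset.sum_sub_distrib, ha, hb, sub_zero]) (by
      unfold SumZero at *
      rw [Finset.sum_sub_distrib, ha, hc, sub_zero])
    (fun i h => hab i (by linarith)) (fun i h => hac i (by linarith))
  refine ⟨fun i => a i + q i, ?_, ⟨k1, fun i hi => ?_⟩, ⟨k2, fun i hi => ?_⟩, ⟨k3, fun i hi => ?_⟩⟩
  · unfold SumZero at *
    rw [Finset.sum_add_distrib, ha, h0, add_zero]
  · have := h1 i hi
    simp only [Pi.zero_apply] at this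
    show a i < a i + q i
    linarith
  · have := h2 i hi
    show a i + q i < b i
    linarith
  · have := h3 i hi
    show a i + q i < c i
    linarith

/-- Insertion of a point with two predecessors and one successor. -/
theorem exists_between' {a b c : Fin 3 → ℝ} (ha : SumZero a) (hb : SumZero b) (hc : SumZero c)
    (hab : Apart a b) (hac : Apart a c) :
    ∃ p, SumZero p ∧ Maj p a ∧ Maj b p ∧ Maj c p := by
  have hneg : ∀ x : Fin 3 → ℝ, SumZero x → SumZero (fun i => - x i) := by
    intro x hx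
    unfold SumZero at *
    rw [Finset.sum_neg_distrib, hx, neg_zero]
  obtain ⟨p, h0, h1, h2, h3⟩ := exists_between (hneg a ha) (hneg b hb) (hneg c hc)
    (fun i h => hab i (neg_injective h)) (fun i h => hac i (neg_injective h))
  refine ⟨fun i => - p i, hneg p h0, ?_, ?_, ?_⟩
  · simpa using maj_neg h1
  · simpa using maj_neg h2
  · simpa using maj_neg h3

/-- A point may be moved a little without losing the relations, and then it is apart from finitely
many points. -/
theorem perturb {p : Fin 3 → ℝ} (hp : SumZero p) {ι : Type*} (I O S : Finset ι)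
    (f : ι → Fin 3 → ℝ) (hI : ∀ x ∈ I, Maj (f x) p) (hO : ∀ x ∈ O, Maj p (f x)) :
    ∃ q, SumZero q ∧ (∀ x ∈ I, Maj (f x) q) ∧ (∀ x ∈ O, Maj q (f x)) ∧
      ∀ x ∈ S, Apart (f x) q := by
  obtain ⟨v1, v2, v3⟩ := vec_spec (i := 0) (j := 1) (k := 2) (by decide) (by decide) (by decide)
    (1 : ℝ) 1 (-2)
  have hw : ∀ l, vec 0 1 (1 : ℝ) 1 (-2) l ≠ 0 := by
    intro l
    rcases three 0 1 2 l (by decide) (by decide) (by decide) with h | h | h
    · rw [h, v1]; norm_num
    · rw [h, v2]; norm_num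
    · rw [h, v3]; norm_num
  generalize hwdef : vec 0 1 (1 : ℝ) 1 (-2) = w at v1 v2 v3 hw
  have hcont : ∀ i, Tendsto (fun t : ℝ => p i + t * w i) (𝓝[≠] 0) (𝓝 (p i)) := by
    intro i
    have : Tendsto (fun t : ℝ => p i + t * w i) (𝓝 0) (𝓝 (p i + 0 * w i)) :=
      (continuous_const.add (continuous_id.mul continuous_const)).tendsto 0
    rw [zero_mul, add_zero] at this
    exact this.mono_left nhdsWithin_le_nhds
  have e1 : ∀ᶠ t : ℝ in 𝓝[≠] 0, ∀ x ∈ I, Maj (f x) (fun i => p i + t * w i) := by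
    rw [eventually_all_finset]
    intro x hx
    obtain ⟨k, hk⟩ := hI x hx
    have : ∀ᶠ t : ℝ in 𝓝[≠] 0, ∀ i, i ≠ k → f x i < p i + t * w i := by
      rw [eventually_all]
      intro i
      by_cases hi : i = k
      · exact Eventually.of_forall fun s h => absurd hi h
      · exact ((hcont i).eventually_const_lt (hk i hi)).mono fun s hs _ => hs
    exact this.mono fun t ht => ⟨k, ht⟩
  have e2 : ∀ᶠ t : ℝ in 𝓝[≠] 0, ∀ x ∈ O, Maj (fun i => p i + t * w i) (f x) := by
    rw [eventually_all_finset]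
    intro x hx
    obtain ⟨k, hk⟩ := hO x hx
    have : ∀ᶠ t : ℝ in 𝓝[≠] 0, ∀ i, i ≠ k → p i + t * w i < f x i := by
      rw [eventually_all]
      intro i
      by_cases hi : i = k
      · exact Eventually.of_forall fun s h => absurd hi h
      · exact ((hcont i).eventually_lt_const (hk i hi)).mono fun s hs _ => hs
    exact this.mono fun t ht => ⟨k, ht⟩
  have e3 : ∀ᶠ t : ℝ in 𝓝[≠] 0, ∀ x ∈ S, Apart (f x) (fun i => p i + t * w i) := by
    rw [eventually_all_finset]
    intro x _
    unfold Apart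
    rw [eventually_all]
    intro i
    have h1 : ∀ᶠ t : ℝ in 𝓝[≠] 0, t ≠ (f x i - p i) / w i := by
      by_cases hc : (f x i - p i) / w i = 0
      · rw [hc]; exact eventually_mem_nhdsWithin
      · exact (eventually_ne_nhds (Ne.symm hc)).filter_mono nhdsWithin_le_nhds
    refine h1.mono fun t ht h => ht ?_
    rw [eq_div_iff (hw i)]
    linarith
  obtain ⟨t, h1, h2, h3⟩ := (e1.and (e2.and e3)).exists
  refine ⟨fun i => p i + t * w i, ?_, h1, h2, h3⟩
  unfold SumZero at *
  rw [Finset.sum_add_distrib, hp, ← Finset.mul_sum,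
    sum_eq w (i := 0) (j := 1) (k := 2) (by decide) (by decide) (by decide), v1, v2, v3]
  ring

end Pool.Agent.H87.TD
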